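import Pool.Agent.TH259.NS.Bes

/-!
`J_2, J_4, J_6, ...` have no zeros in `[6, T]` if `J_4` has no zero in `(0, T]`.
-/

set_option autoImplicit false

open Set Real TH259.NS

namespace TH259.NA

theorem bt_tail (k : ℕ) : (9 : ℝ) ^ (k + 8) / (((k + 8).factorial : ℝ) * ((k + 8 + 2).factorial : ℝ)) ≤
    (3 / 10000) * (1 / 11) ^ k := by
  induction k with
  | zero => norm_num [Nat.factorial]
  | succ k ih =>
    obtain ⟨m, hm⟩ : ∃ m, m = k + 8 := ⟨_, rfl⟩
    rw [show k + 1 + 8 = m + 1 by omega]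
    rw [← hm] at ih
    have hmk : (m : ℝ) = k + 8 := by rw [hm]; push_cast; ring
    have p1 : (0 : ℝ) < m.factorial := by positivity
    have p2 : (0 : ℝ) < (m + 2).factorial := by positivity
    have h1 : (9 : ℝ) ^ (m + 1) / (((m + 1).factorial : ℝ) * ((m + 1 + 2).factorial : ℝ)) =
        (9 : ℝ) ^ m / ((m.factorial : ℝ) * ((m + 2).factorial : ℝ)) *
          (9 / (((m : ℝ) + 1) * ((m : ℝ) + 3))) := by
      rw [show m + 1 + 2 = (m + 2) + 1 by ring, Nat.factorial_succ m, Nat.factorial_succ (m + 2),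
        pow_succ]
      push_cast
      rw [div_mul_div_comm]
      congr 1
      ring
    rw [h1, pow_succ (1 / 11 : ℝ), ← mul_assoc]
    have h2 : 9 / (((m : ℝ) + 1) * ((m : ℝ) + 3)) ≤ 1 / 11 := by
      rw [div_le_div_iff₀ (by positivity) (by norm_num), hmk]
      have : (0 : ℝ) ≤ k := Nat.cast_nonneg k
      nlinarith
    exact mul_le_mul ih h2 (by positivity) (by positivity)

theorem B2_nine : B 2 9 < 0 := by
  have hs := bt_summable 2 9
  have h1 : B 2 9 = (∑ k ∈ Finset.range 8, bt 2 k 9) + ∑' k, bt 2 (k + 8) 9 :=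
    (hs.sum_add_tsum_nat_add 8).symm
  have h2 : ‖∑' k, bt 2 (k + 8) 9‖ ≤ (3 / 10000) * (11 / 10) := by
    have h3 : HasSum (fun k : ℕ => (3 / 10000 : ℝ) * (1 / 11) ^ k) ((3 / 10000) * (11 / 10)) := by
      have := (hasSum_geometric_of_lt_one (r := (1 / 11 : ℝ)) (by norm_num) (by norm_num)).mul_left
        (3 / 10000 : ℝ)
      have e : (1 - 1 / 11 : ℝ)⁻¹ = 11 / 10 := by norm_num
      rwa [e] at this
    refine tsum_of_norm_bounded h3 fun k => ?_
    refine le_trans (le_of_eq ?_) (bt_tail k)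
    unfold bt
    rw [norm_div, norm_mul, norm_pow, norm_neg, norm_one, one_pow, one_mul, norm_pow,
      Real.norm_eq_abs, Real.norm_eq_abs, abs_of_pos (by norm_num : (0 : ℝ) < 9),
      abs_of_pos (by positivity)]
  rw [Real.norm_eq_abs, abs_le] at h2
  rw [h1]
  have h4 : (∑ k ∈ Finset.range 8, bt 2 k 9) < - (1 / 100) := by
    unfold bt
    simp only [Finset.sum_range_succ, Finset.sum_range_zero]
    norm_num [Nat.factorial]
  linarith [h2.2]

theorem B_pos_of_ne {n : ℕ} {S : ℝ} (hz : ∀ s, 0 < s → s ≤ S → B n s ≠ 0) {s : ℝ} (h0 : 0 ≤ s)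
    (hs : s ≤ S) : 0 < B n s := by
  have hB0 : 0 < B n 0 := by rw [B_zero]; positivity
  by_contra hcon
  push Not at hcon
  have hc : ContinuousOn (B n) (Icc 0 s) := (B_cont n).continuousOn
  obtain ⟨t, ht, ht0⟩ := intermediate_value_Icc' h0 hc ⟨hcon, hB0.le⟩
  rcases eq_or_lt_of_le ht.1 with h | h
  · rw [← h] at ht0
    exact hB0.ne' ht0
  · exact hz t h (ht.2.trans hs) ht0

theorem B_pos_succ {n : ℕ} {S : ℝ} (h : ∀ s, 0 ≤ s → s ≤ S → 0 < B n s) {s : ℝ} (h0 : 0 ≤ s)
    (hs : s ≤ S) : 0 < B (n + 1) s := by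
  rcases eq_or_lt_of_le h0 with h1 | h1
  · rw [← h1, B_zero]; positivity
  have hd : ∀ x, HasDerivAt (fun x => x ^ (n + 1) * B (n + 1) x) (x ^ n * B n x) x := by
    intro x
    have k1 := (hasDerivAt_pow (n + 1) x).mul (B_deriv (n + 1) x)
    refine k1.congr_deriv ?_
    have k2 := B_ode n x
    simp only [Nat.add_sub_cancel]
    push_cast
    rw [pow_succ]
    linear_combination (-(x ^ n)) * k2
  have hm : StrictMonoOn (fun x => x ^ (n + 1) * B (n + 1) x) (Icc 0 s) := by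
    refine strictMonoOn_of_deriv_pos (convex_Icc 0 s)
      (fun x _ => (hd x).continuousAt.continuousWithinAt) fun x hx => ?_
    rw [interior_Icc] at hx
    rw [(hd x).deriv]
    exact mul_pos (pow_pos hx.1 n) (h x hx.1.le (hx.2.le.trans hs))
  have h2 := hm (left_mem_Icc.2 h0) (right_mem_Icc.2 h0) h1
  simp only [ne_eq, Nat.add_eq_zero_iff, one_ne_zero, and_false, not_false_eq_true, zero_pow,
    zero_mul] at h2
  exact (pos_iff_pos_of_mul_pos h2).1 (pow_pos h1 _)

theorem B_pos_ge {n : ℕ} {S : ℝ} (h : ∀ s, 0 ≤ s → s ≤ S → 0 < B n s) (k : ℕ) :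
    ∀ s, 0 ≤ s → s ≤ S → 0 < B (n + k) s := by
  induction k with
  | zero => exact h
  | succ k ih => exact fun s h0 hs => B_pos_succ (n := n + k) ih h0 hs

theorem B2_neg {S : ℝ} (h4 : ∀ s, 0 ≤ s → s ≤ S → 0 < B 4 s) {s : ℝ} (h9 : 9 ≤ s) (hs : s ≤ S) :
    B 2 s < 0 := by
  have h0 : 0 ≤ s := by linarith
  have hode := B_ode 2 s
  push_cast at hode
  have hB4 := h4 s h0 hs
  rcases le_or_gt (B 3 s) 0 with h3 | h3
  · have h5 : 0 < s * B 4 s := mul_pos (by linarith) hB4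
    have h6 : s * B (2 + 2) s - (2 + 1) * B (2 + 1) s + B 2 s = 0 := hode
    norm_num at h6
    linarith
  · have hanti : StrictAntiOn (B 3) (Icc 0 s) := by
      refine strictAntiOn_of_deriv_neg (convex_Icc 0 s)
        (fun x _ => (B_deriv 3 x).continuousAt.continuousWithinAt) fun x hx => ?_
      rw [interior_Icc] at hx
      rw [(B_deriv 3 x).deriv]
      have := h4 x hx.1.le (hx.2.le.trans hs)
      simpa using this
    have h3' : ∀ x ∈ Icc 0 s, 0 < B 3 x := by
      intro x hx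
      exact h3.trans_le (hanti.antitoneOn hx (right_mem_Icc.2 h0) hx.2)
    have hanti2 : AntitoneOn (B 2) (Icc 0 s) := by
      refine antitoneOn_of_deriv_nonpos (convex_Icc 0 s)
        (fun x _ => (B_deriv 2 x).continuousAt.continuousWithinAt)
        (fun x _ => (B_deriv 2 x).differentiableAt.differentiableWithinAt) fun x hx => ?_
      rw [interior_Icc] at hx
      rw [(B_deriv 2 x).deriv]
      have := h3' x ⟨hx.1.le, hx.2.le⟩
      simp only [Nat.reduceAdd]
      linarith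
    have := hanti2 ⟨by norm_num, h9⟩ (right_mem_Icc.2 h0) h9
    linarith [B2_nine]

/-- the even Bessel functions between `6` and the first zero of `J_4` -/
theorem J_even {T : ℝ} (h4 : ∀ t, 0 < t → t ≤ T → J 4 t ≠ 0) {k : ℕ} (hk : 1 ≤ k) (h2 : 2 ∣ k)
    {t : ℝ} (h6 : 6 ≤ t) (ht : t ≤ T) : J k t ≠ 0 := by
  have hpos : ∀ s, 0 ≤ s → s ≤ T ^ 2 / 4 → 0 < B 4 s := by
    intro s h0 hs
    refine B_pos_of_ne (S := T ^ 2 / 4) (fun s h0 hs hz => ?_) h0 hs
    have hT : 0 ≤ T := by linarith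
    have h1 : 2 * √s ≤ T := by
      have h2 : s ≤ (T / 2) ^ 2 := by
        rw [div_pow]
        linarith
      have := Real.sqrt_le_sqrt h2
      rw [Real.sqrt_sq (by positivity)] at this
      linarith
    refine h4 (2 * √s) (by positivity) h1 ?_
    rw [J_eq]
    have h3 : (2 * √s) ^ 2 / 4 = s := by
      rw [mul_pow, Real.sq_sqrt h0.le]
      ring
    rw [h3, hz, mul_zero]
  have hts : t ^ 2 / 4 ≤ T ^ 2 / 4 := by nlinarith
  rw [J_eq]
  refine mul_ne_zero (pow_ne_zero _ (by linarith)) ?_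
  obtain ⟨j, rfl⟩ := h2
  rcases Nat.lt_or_ge j 2 with hj | hj
  · have : j = 1 := by omega
    subst this
    exact (B2_neg hpos (by nlinarith) hts).ne
  · obtain ⟨i, hi⟩ : ∃ i, 2 * j = 4 + i := ⟨2 * j - 4, by omega⟩
    rw [hi]
    exact (B_pos_ge hpos i _ (by positivity) hts).ne'

end TH259.NA
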