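import Pool.Agent.TH259.NA.Final
import Pool.Agent.TH259.NA.Bes2
import Pool.Agent.TH298.GB.Main

/-!
Centrally symmetric convex domains up to the second disc.
-/

set_option autoImplicit false

open MeasureTheory Set Real Filter Topology Metric TH259.NS
open Pool.Agent.TH298.Sch (Sol)
open Pool.Agent.TH298.AN (ball_le ball_J1)

namespace TH259.NA

/-- a disc which is symmetric about the origin has its centre at the origin -/
theorem centre_zero {p : ℂ} {r : ℝ} (hr : 0 < r) (hs : ∀ x ∈ ball p r, -x ∈ ball p r) : p = 0 := by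
  by_contra hp
  have hp0 : 0 < ‖p‖ := norm_pos_iff.2 hp
  obtain ⟨s, hs1, hs2⟩ := exists_between (show max 0 (r - ‖p‖) < r by
    apply max_lt hr; linarith)
  have h0 : 0 < s := (le_max_left _ _).trans_lt hs1
  have h1 : r - ‖p‖ < s := (le_max_right _ _).trans_lt hs1
  have h2 : p + ((s / ‖p‖ : ℝ) : ℂ) * p ∈ ball p r := by
    rw [mem_ball_iff_norm, add_sub_cancel_left, norm_mul, Complex.norm_real, Real.norm_eq_abs,
      abs_of_pos (by positivity), div_mul_cancel₀ _ hp0.ne']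
    exact hs2
  have h3 := hs _ h2
  rw [mem_ball_iff_norm] at h3
  have h4 : -(p + ((s / ‖p‖ : ℝ) : ℂ) * p) - p = -(((2 + s / ‖p‖ : ℝ) : ℂ) * p) := by
    push_cast
    ring
  rw [h4, norm_neg, norm_mul, Complex.norm_real, Real.norm_eq_abs, abs_of_pos (by positivity),
    add_mul, div_mul_cancel₀ _ hp0.ne'] at h3
  linarith

theorem exp_half : Complex.exp ((2 * π / (2 : ℕ) : ℝ) * Complex.I) = -1 := by
  have : ((2 * π / (2 : ℕ) : ℝ) : ℂ) = π := by
    push_cast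
    ring
  rw [this]
  exact Complex.exp_pi_mul_I

/-- A convex set which is symmetric about the origin and does not lie in a narrow strip contains a
large disc. -/
theorem ball_of_width {Ω : Set ℂ} (ho : IsOpen Ω) (hcv : Convex ℝ Ω) (hne : Ω.Nonempty)
    (hsym : ∀ x ∈ Ω, -x ∈ Ω) {ρ : ℝ}
    (hw : ∀ e : ℂ, ‖e‖ = 1 → ∀ w : ℝ, w < 2 * ρ → ∃ x ∈ Ω, ∃ y ∈ Ω, w < inner ℝ e (x - y)) :
    ball (0 : ℂ) ρ ⊆ Ω := by
  intro z hz
  by_contra hzΩ
  rw [mem_ball_zero_iff] at hz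
  obtain ⟨f, hf⟩ := geometric_hahn_banach_open_point hcv ho hzΩ
  obtain ⟨x0, hx0⟩ := hne
  obtain ⟨v, hv⟩ : ∃ v : ℂ, v = (InnerProductSpace.toDual ℝ ℂ).symm f := ⟨_, rfl⟩
  have hfv : ∀ x, f x = inner ℝ v x := by
    intro x
    rw [hv, InnerProductSpace.toDual_symm_apply]
  have hv0 : v ≠ 0 := by
    intro h0
    have := hf x0 hx0
    rw [hfv, hfv, h0, inner_zero_left, inner_zero_left] at this
    exact lt_irrefl _ this
  have hvp : 0 < ‖v‖ := norm_pos_iff.2 hv0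
  obtain ⟨e, he⟩ : ∃ e : ℂ, e = (‖v‖⁻¹ : ℝ) • v := ⟨_, rfl⟩
  have he1 : ‖e‖ = 1 := by
    rw [he, norm_smul, Real.norm_eq_abs, abs_of_pos (inv_pos.2 hvp), inv_mul_cancel₀ hvp.ne']
  have hin : ∀ x ∈ Ω, inner ℝ e x < ‖z‖ := by
    intro x hx
    have h1 := hf x hx
    rw [hfv, hfv] at h1
    have h2 : inner ℝ e x < inner ℝ e z := by
      rw [he, real_inner_smul_left, real_inner_smul_left]
      exact mul_lt_mul_of_pos_left h1 (inv_pos.2 hvp)
    refine h2.trans_le ((real_inner_le_norm e z).trans ?_)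
    rw [he1, one_mul]
  obtain ⟨x, hx, y, hy, hxy⟩ := hw e he1 (2 * ‖z‖) (by linarith)
  have h1 := hin x hx
  have h2 := hin (-y) (hsym y hy)
  rw [inner_sub_right] at hxy
  rw [inner_neg_right] at h2
  linarith

/-- the complement of a bounded convex set around the origin is connected -/
theorem compl_conn {Ω : Set ℂ} (hcv : Convex ℝ Ω) (hb : Bornology.IsBounded Ω)
    (h0 : (0 : ℂ) ∈ Ω) : IsPreconnected Ωᶜ := by
  obtain ⟨R, hR0, hR⟩ := hb.exists_pos_norm_le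
  obtain ⟨C, hC⟩ : ∃ C : Set ℂ,
      C = (fun p : ℝ × ℝ => (p.1 : ℂ) * Complex.exp (p.2 * Complex.I)) '' (Ioi R ×ˢ univ) :=
    ⟨_, rfl⟩
  have hCp : IsPreconnected C := by
    rw [hC]
    refine (isPreconnected_Ioi.prod isPreconnected_univ).image _ ?_
    fun_prop
  have hCm : ∀ x : ℂ, R < ‖x‖ → x ∈ C := by
    intro x hx
    rw [hC]
    exact ⟨(‖x‖, Complex.arg x), ⟨hx, mem_univ _⟩, Complex.norm_mul_exp_arg_mul_I x⟩
  have hCΩ : C ⊆ Ωᶜ := by
    rw [hC]
    rintro _ ⟨p, hp, rfl⟩ hcon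
    have h1 := hR _ hcon
    simp only at h1
    rw [norm_mul, Complex.norm_exp_ofReal_mul_I, mul_one, Complex.norm_real, Real.norm_eq_abs] at h1
    have h2 : R < p.1 := hp.1
    have h3 := le_abs_self p.1
    linarith
  refine isPreconnected_of_forall ((R + 1 : ℝ) : ℂ) fun y hy => ?_
  have hy0 : y ≠ 0 := fun h => hy (by rw [h]; exact h0)
  have hyp : 0 < ‖y‖ := norm_pos_iff.2 hy0
  obtain ⟨S, hS⟩ : ∃ S : Set ℂ, S = (fun t : ℝ => t • y) '' Ici 1 := ⟨_, rfl⟩
  have hSp : IsPreconnected S := by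
    rw [hS]
    refine isPreconnected_Ici.image _ ?_
    fun_prop
  have hSΩ : S ⊆ Ωᶜ := by
    rw [hS]
    rintro _ ⟨t, ht, rfl⟩ hcon
    have ht1 : (1 : ℝ) ≤ t := ht
    have ht0 : 0 < t := by linarith
    apply hy
    have h1 := hcv hcon h0 (a := t⁻¹) (b := 1 - t⁻¹) (inv_pos.2 ht0).le
      (sub_nonneg.2 (inv_le_one_of_one_le₀ ht1)) (by ring)
    rwa [smul_zero, add_zero, smul_smul, inv_mul_cancel₀ ht0.ne', one_smul] at h1
  obtain ⟨T, hT⟩ : ∃ T : ℝ, T = max 1 ((R + 1) / ‖y‖) := ⟨_, rfl⟩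
  have hTC : T • y ∈ C := by
    apply hCm
    rw [norm_smul, Real.norm_eq_abs]
    have h1 : (R + 1) / ‖y‖ ≤ T := by rw [hT]; exact le_max_right _ _
    have h2 : (R + 1) ≤ T * ‖y‖ := by rwa [div_le_iff₀ hyp] at h1
    have h3 := mul_le_mul_of_nonneg_right (le_abs_self T) hyp.le
    linarith
  have hTS : T • y ∈ S := by
    rw [hS]
    exact ⟨T, (hT ▸ le_max_left (1 : ℝ) ((R + 1) / ‖y‖) : (1 : ℝ) ≤ T), rfl⟩
  refine ⟨C ∪ S, union_subset hCΩ hSΩ, Or.inl (hCm _ ?_), Or.inr ?_, hCp.union _ hTC hTS hSp⟩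
  · rw [Complex.norm_real, Real.norm_eq_abs]
    have := le_abs_self (R + 1)
    linarith
  · rw [hS]
    exact ⟨1, mem_Ici.2 le_rfl, one_smul ℝ y⟩

/-- **Schiffer's problem for centrally symmetric convex domains up to the second disc.** -/
theorem conv2 {Ω : Set ℂ} (ho : IsOpen Ω) (hcv : Convex ℝ Ω)
    (hb : Bornology.IsBounded Ω) (hne : Ω.Nonempty) (hsym : ∀ x ∈ Ω, -x ∈ Ω) {lam : ℝ}
    (hlam : 0 < lam) {R : ℝ} (hR : ∀ x ∈ Ω, ‖x‖ ≤ R)
    (hJ : ∀ t, 0 < t → t ≤ √lam * R → J 4 t ≠ 0)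
    {c : ℝ} {u : ℂ → ℝ} {G : ℂ → ℂ} (h : Sol Ω lam c u G)
    (hu0 : ¬ (u =ᵐ[volume.restrict Ω] 0)) :
    ∃ r : ℝ, 0 < r ∧ r ≤ R ∧ Ω = ball 0 r ∧ J 1 (√lam * r) = 0 := by
  have hk : 0 < √lam := Real.sqrt_pos.2 hlam
  have hc := h.c_ne hb ho.measurableSet hlam hu0
  have hR0 : 0 ≤ R := by
    obtain ⟨x, hx⟩ := hne
    exact (norm_nonneg _).trans (hR x hx)
  have key : ∃ r : ℝ, 0 < r ∧ Ω = ball 0 r := by
    by_cases hcase : ∃ e : ℂ, ‖e‖ = 1 ∧ ∃ w : ℝ, √lam * w < 4 * π ∧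
        ∀ x ∈ Ω, ∀ y ∈ Ω, inner ℝ e (x - y) ≤ w
    · obtain ⟨e, he, w, hw1, hw2⟩ := hcase
      obtain ⟨p, r, hr, hball⟩ :=
        Pool.Agent.TH298.GB.first_band ho hcv hb hne hlam he hw2 hw1 h hu0
      have hp : p = 0 := centre_zero hr (by rw [← hball]; exact hsym)
      exact ⟨r, hr, by rw [hball, hp]⟩
    · push Not at hcase
      have hin : ball (0 : ℂ) (2 * π / √lam) ⊆ Ω := by
        refine ball_of_width ho hcv hne hsym fun e he w hw => ?_
        obtain ⟨x, hx, y, hy, hxy⟩ := hcase e he w (by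
          have h1 : √lam * w < √lam * (2 * (2 * π / √lam)) := mul_lt_mul_of_pos_left hw hk
          have h2 : √lam * (2 * (2 * π / √lam)) = 4 * π := by
            field_simp
            ring
          linarith)
        exact ⟨x, hx, y, hy, hxy⟩
      have hco : IsPreconnected Ωᶜ := compl_conn hcv hb (hin (mem_ball_self (by positivity)))
      refine annN Pool.Agent.TH298.AN.pars2 (n := 2) two_pos ho hb hne hco ?_
        (hcv.addHaar_frontier volume) ?_ hlam (a1 := 2 * π / √lam) (by positivity) hin hR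
        (fun k hk1 hk2 t ht1 ht2 => ?_) h hu0
      · rw [hcv.interior_closure_eq_interior_of_nonempty_interior (by rwa [ho.interior_eq]),
          ho.interior_eq]
      · intro x hx
        rw [exp_half, neg_one_mul]
        exact hsym x hx
      · have h6 : 6 ≤ t := by
          have : √lam * (2 * π / √lam) = 2 * π := by field_simp
          rw [this] at ht1
          linarith [pi_gt_three]
        exact J_even (T := √lam * R) hJ hk1 hk2 h6 ht2
  obtain ⟨r, hr, hball⟩ := key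
  refine ⟨r, hr, ?_, hball, ?_⟩
  · refine ball_le hR0 (p := (0 : ℂ)) (q := 0) ?_
    rw [← hball]
    intro x hx
    rw [mem_closedBall_zero_iff]
    exact hR x hx
  · rw [hball] at h
    exact ball_J1 hr hlam hc h

end TH259.NA
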