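import Pool.Agent.TH298.AN.Coer

/-!
Coercivity for functions with an `m`-fold rotational symmetry, from the mode inequalities.
-/

set_option autoImplicit false

open MeasureTheory Set Real Pool.Agent.TH298.Sch Pool.Agent.TH298.AN TH259.NS
open scoped ContDiff

namespace TH259.NA

theorem X_per (r θ : ℝ) : X r (θ + 2 * π) = X r θ := by
  unfold X
  rw [cos_add_two_pi, sin_add_two_pi]

/-- the modes whose order is not a multiple of `m` vanish -/
theorem mode_van {v : ℂ → ℝ} (hv : Continuous v) {m : ℕ} (hm : 0 < m)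
    (hper : ∀ x, v (Complex.exp ((2 * π / m : ℝ) * Complex.I) * x) = v x) {n : ℕ} (hmn : ¬ m ∣ n)
    (r : ℝ) : mc v n r = 0 ∧ ms v n r = 0 := by
  have hm0 : (m : ℝ) ≠ 0 := by exact_mod_cast hm.ne'
  obtain ⟨α, hα⟩ : ∃ α : ℝ, α = 2 * π / m := ⟨_, rfl⟩
  have hg : ∀ θ, v (X r (θ + α)) = v (X r θ) := by
    intro θ
    rw [X_add, hα]
    exact hper _
  have hvc : Continuous fun θ : ℝ => v (X r θ) :=
    hv.comp (X_cont.comp (continuous_const.prodMk continuous_id))
  have pc : Function.Periodic (fun θ : ℝ => v (X r θ) * cos (n * θ)) (2 * π) := by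
    intro θ
    simp only
    rw [X_per, mul_add, Real.cos_add_nat_mul_two_pi]
  have ps : Function.Periodic (fun θ : ℝ => v (X r θ) * sin (n * θ)) (2 * π) := by
    intro θ
    simp only
    rw [X_per, mul_add, Real.sin_add_nat_mul_two_pi]
  have sh : ∀ f : ℝ → ℝ, Function.Periodic f (2 * π) →
      ∫ θ in (-π)..π, f θ = ∫ θ in (-π)..π, f (θ + α) := by
    intro f hf
    rw [intervalIntegral.integral_comp_add_right]
    have h1 := hf.intervalIntegral_add_eq (-π) (-π + α)
    have e1 : -π + 2 * π = π := by ring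
    have e2 : -π + α + 2 * π = π + α := by ring
    rw [e1, e2] at h1
    exact h1
  have i1 : IntervalIntegrable (fun θ => v (X r θ) * cos (n * θ)) volume (-π) π :=
    (hvc.mul (by fun_prop)).intervalIntegrable _ _
  have i2 : IntervalIntegrable (fun θ => v (X r θ) * sin (n * θ)) volume (-π) π :=
    (hvc.mul (by fun_prop)).intervalIntegrable _ _
  have h1 : mc v n r = cos (n * α) * mc v n r - sin (n * α) * ms v n r := by
    refine (sh _ pc).trans ?_
    unfold mc ms
    rw [← intervalIntegral.integral_const_mul, ← intervalIntegral.integral_const_mul,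
      ← intervalIntegral.integral_sub (i1.const_mul _) (i2.const_mul _)]
    refine intervalIntegral.integral_congr fun θ _ => ?_
    simp only [hg]
    rw [mul_add, cos_add]
    ring
  have h2 : ms v n r = sin (n * α) * mc v n r + cos (n * α) * ms v n r := by
    refine (sh _ ps).trans ?_
    unfold mc ms
    rw [← intervalIntegral.integral_const_mul, ← intervalIntegral.integral_const_mul,
      ← intervalIntegral.integral_add (i1.const_mul _) (i2.const_mul _)]
    refine intervalIntegral.integral_congr fun θ _ => ?_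
    simp only [hg]
    rw [mul_add, sin_add]
    ring
  have h3 : cos (n * α) ≠ 1 := by
    intro h
    obtain ⟨k, hk⟩ := (Real.cos_eq_one_iff _).1 h
    apply hmn
    have h4 : (k : ℝ) * m = n := by
      rw [hα] at hk
      have hpi := Real.pi_pos.ne'
      field_simp at hk
      linarith
    have h5 : (k : ℤ) * (m : ℤ) = (n : ℤ) := by exact_mod_cast h4
    exact Int.natCast_dvd_natCast.1 ⟨k, by rw [← h5]; ring⟩
  have h4 := sin_sq_add_cos_sq (n * α)
  have h5 : 0 < (1 - cos (n * α)) ^ 2 + sin (n * α) ^ 2 := by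
    have := sq_nonneg (sin (n * α))
    have := (sq_pos_iff (a := 1 - cos (n * α))).2 (sub_ne_zero.2 (Ne.symm h3))
    linarith
  constructor
  · have h6 : ((1 - cos (n * α)) ^ 2 + sin (n * α) ^ 2) * mc v n r = 0 := by
      linear_combination (1 - cos (n * α)) * h1 - sin (n * α) * h2
    exact (mul_eq_zero.1 h6).resolve_left h5.ne'
  · have h6 : ((1 - cos (n * α)) ^ 2 + sin (n * α) ^ 2) * ms v n r = 0 := by
      linear_combination (1 - cos (n * α)) * h2 + sin (n * α) * h1
    exact (mul_eq_zero.1 h6).resolve_left h5.ne'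

/-- finitely many modes -/
theorem fin_modes (hM : Mode) {m : ℕ} {a b lam : ℝ} (ha : 0 < a) (hab : a < b) (hlam : 0 < lam)
    (hB : ∀ n : ℕ, 1 ≤ n → m ∣ n → ∀ s ∈ Icc (lam * a ^ 2 / 4) (lam * b ^ 2 / 4), B n s ≠ 0)
    (N : ℕ) :
    ∃ κ : ℝ, 0 < κ ∧ ∀ n : ℕ, 1 ≤ n → m ∣ n → n < N → ∀ (y y' : ℝ → ℝ) (α : ℝ),
      (∀ r, HasDerivAt y (y' r) r) → Continuous y' →
      y b = 0 → (∀ r ∈ Icc 0 a, y r = α * r ^ n * B n (lam * r ^ 2 / 4)) →
      ModeIneq (lam + κ) b n y y' := by
  induction N with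
  | zero => exact ⟨1, one_pos, fun n _ _ h => absurd h (Nat.not_lt_zero n)⟩
  | succ N ih =>
    obtain ⟨κ, hκ, h⟩ := ih
    by_cases hN : 1 ≤ N ∧ m ∣ N
    · obtain ⟨κ', hκ', h'⟩ := hM N a b lam hN.1 ha hab hlam (hB N hN.1 hN.2)
      refine ⟨min κ κ', lt_min hκ hκ', fun n h2 h2' hn y y' α h3 h4 h5 h6 => ?_⟩
      rcases Nat.lt_succ_iff_lt_or_eq.1 hn with h7 | h7
      · exact mode_mono (ha.trans hab) (h n h2 h2' h7 y y' α h3 h4 h5 h6)
          (by linarith [min_le_left κ κ'])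
      · subst h7
        exact mode_mono (ha.trans hab) (h' y y' α h3 h4 h5 h6) (by linarith [min_le_right κ κ'])
    · refine ⟨κ, hκ, fun n h2 h2' hn => h n h2 h2' ?_⟩
      rcases Nat.lt_succ_iff_lt_or_eq.1 hn with h7 | h7
      · exact h7
      · exact absurd ⟨h7 ▸ h2, h7 ▸ h2'⟩ hN

theorem mode_zero_fun {μ b : ℝ} {n : ℕ} {y y' : ℝ → ℝ} (hy : ∀ r, HasDerivAt y (y' r) r)
    (h0 : ∀ r, y r = 0) : ModeIneq μ b n y y' := by
  have h1 : ∀ r, y' r = 0 := by
    intro r
    have h2 : y = fun _ => 0 := funext h0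
    have h3 := hy r
    rw [h2] at h3
    exact h3.unique (hasDerivAt_const r 0)
  unfold ModeIneq
  simp [h0, h1]

/-- the coercivity inequality for symmetric functions with mean zero on all circles -/
theorem coerN (hP : Pars) (hM : Mode) (hO : Odem) {m : ℕ} (hm : 0 < m) {a b lam : ℝ}
    (ha : 0 < a) (hab : a < b) (hlam : 0 < lam)
    (hB : ∀ n : ℕ, 1 ≤ n → m ∣ n → ∀ s ∈ Icc (lam * a ^ 2 / 4) (lam * b ^ 2 / 4), B n s ≠ 0) :
    ∃ μ : ℝ, lam < μ ∧ ∀ v : ℂ → ℝ, ContDiff ℝ (⊤ : ℕ∞) v → (∀ x, b ≤ ‖x‖ → v x = 0) →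
      (∀ x : ℂ, ‖x‖ < a → dd 1 (dd 1 v) x + dd Complex.I (dd Complex.I v) x = -(lam * v x)) →
      (∀ x, v (Complex.exp ((2 * π / m : ℝ) * Complex.I) * x) = v x) →
      (∀ r, ∫ θ in (-π)..π, v (X r θ) = 0) →
      μ * ∫ x, v x ^ 2 ≤ ∫ x, ((fderiv ℝ v x 1) ^ 2 + (fderiv ℝ v x Complex.I) ^ 2) := by
  have hb : 0 < b := ha.trans hab
  obtain ⟨N, hN⟩ := exists_nat_ge ((lam + 1) * b ^ 2 + 1)
  obtain ⟨κ2, hκ2, h2⟩ := fin_modes hM ha hab hlam hB N
  obtain ⟨κ, hκdef⟩ : ∃ κ, κ = min κ2 1 := ⟨_, rfl⟩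
  have hκ : 0 < κ := by rw [hκdef]; exact lt_min hκ2 one_pos
  have k2 : κ ≤ κ2 := by rw [hκdef]; exact min_le_left _ _
  have k3 : κ ≤ 1 := by rw [hκdef]; exact min_le_right _ _
  refine ⟨lam + κ, by linarith, fun v hv hsupp hH hper hmean => ?_⟩
  have hO' := hO a lam v ha hlam hv hH
  have hvc : Continuous v := hv.continuous
  have hlarge : ∀ n : ℕ, N ≤ n → (lam + κ) * b ^ 2 ≤ (n : ℝ) ^ 2 := by
    intro n hn
    have h3 : (N : ℝ) ≤ n := by exact_mod_cast hn
    have h4 : (lam + κ) * b ^ 2 ≤ (lam + 1) * b ^ 2 :=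
      mul_le_mul_of_nonneg_right (by linarith) (sq_nonneg b)
    have h5 : 0 ≤ (lam + 1) * b ^ 2 := by positivity
    nlinarith
  refine hP b (lam + κ) v hb hv hsupp (fun n => ?_) (fun n => ?_)
  · by_cases hn0 : n = 0
    · subst hn0
      refine mode_zero_fun (mc_deriv hv 0) fun r => ?_
      have := hmean r
      unfold mc
      simpa using this
    by_cases hmn : m ∣ n
    · by_cases hnN : n < N
      · obtain ⟨α, hα⟩ := (hO' n).1
        exact mode_mono hb (h2 n (by omega) hmn hnN (mc v n) (dc v n) α (mc_deriv hv n)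
          (dc_cont hv n) (mc_b hb hsupp n) hα) (by linarith)
      · exact mode_large hb (hlarge n (not_lt.1 hnN)) (mc_deriv hv n) (dc_cont hv n) (mc_zero hn0)
    · exact mode_zero_fun (mc_deriv hv n) fun r => (mode_van hvc hm hper hmn r).1
  · by_cases hn0 : n = 0
    · subst hn0
      refine mode_zero_fun (ms_deriv hv 0) fun r => ?_
      unfold ms
      simp
    by_cases hmn : m ∣ n
    · by_cases hnN : n < N
      · obtain ⟨α, hα⟩ := (hO' n).2
        exact mode_mono hb (h2 n (by omega) hmn hnN (ms v n) (ds v n) α (ms_deriv hv n)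
          (ds_cont hv n) (ms_b hb hsupp n) hα) (by linarith)
      · exact mode_large hb (hlarge n (not_lt.1 hnN)) (ms_deriv hv n) (ds_cont hv n) (ms_zero n)
    · exact mode_zero_fun (ms_deriv hv n) fun r => (mode_van hvc hm hper hmn r).2

end TH259.NA
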