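import Pool.Agent.TH259.NA.Main
import Pool.Agent.TH298.AN.Final
import Pool.Agent.TH298.AN.Pars2

/-!
Schiffer's problem for domains with an `n`-fold rotational symmetry between two concentric circles:
the final form.
-/

set_option autoImplicit false

open MeasureTheory Set Real Filter Topology Metric TH259.NS
open Pool.Agent.TH298.Sch (Sol)
open Pool.Agent.TH298.AN (ball_le ball_J1)

namespace TH259.NA

theorem ann_final {n : ℕ} (hn : 0 < n) {Ω : Set ℂ} (ho : IsOpen Ω)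
    (hb : Bornology.IsBounded Ω) (hne : Ω.Nonempty) (hco : IsPreconnected Ωᶜ)
    (hint : interior (closure Ω) = Ω) (hfr : volume (frontier Ω) = 0)
    (hs : ∀ x ∈ Ω, Complex.exp ((2 * π / n : ℝ) * Complex.I) * x ∈ Ω) {lam : ℝ} (hlam : 0 < lam)
    {a R : ℝ} (ha : 0 ≤ a) (hin : ball 0 a ⊆ Ω) (hR : ∀ x ∈ Ω, ‖x‖ ≤ R)
    (hJ : ∀ k : ℕ, 1 ≤ k → ∀ t, 0 < t → √lam * a ≤ t → t ≤ √lam * R → J (k * n) t ≠ 0)
    {c : ℝ} {u : ℂ → ℝ} {G : ℂ → ℂ} (h : Sol Ω lam c u G)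
    (hu0 : ¬ (u =ᵐ[volume.restrict Ω] 0)) :
    ∃ r : ℝ, 0 < r ∧ a ≤ r ∧ r ≤ R ∧ Ω = ball 0 r ∧ J 1 (√lam * r) = 0 := by
  have hk : 0 < √lam := Real.sqrt_pos.2 hlam
  have hc := h.c_ne hb ho.measurableSet hlam hu0
  have hR0 : 0 ≤ R := by
    obtain ⟨x, hx⟩ := hne
    exact (norm_nonneg _).trans (hR x hx)
  have key : ∃ r : ℝ, 0 < r ∧ Ω = ball 0 r := by
    rcases eq_or_lt_of_le ha with h0 | h0
    · refine nfold hn ho hb hne hco hint hfr hs hlam hR (fun t ht1 ht2 => ?_) h hu0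
      have := hJ 1 le_rfl t ht1 (by rw [← h0, mul_zero]; exact ht1.le) ht2
      rwa [one_mul] at this
    · refine annN Pool.Agent.TH298.AN.pars2 hn ho hb hne hco hint hfr hs hlam h0 hin hR
        (fun k hk1 hk2 t ht1 ht2 => ?_) h hu0
      obtain ⟨j, rfl⟩ := hk2
      have := hJ j (Nat.pos_of_ne_zero fun h0 => by simp [h0] at hk1) t
        ((mul_pos hk h0).trans_le ht1) ht1 ht2
      rwa [mul_comm] at this
  obtain ⟨r, hr, hball⟩ := key
  refine ⟨r, hr, ?_, ?_, hball, ?_⟩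
  · refine ball_le hr.le (p := (0 : ℂ)) (q := 0) ?_
    rw [hball] at hin
    exact hin.trans ball_subset_closedBall
  · refine ball_le hR0 (p := (0 : ℂ)) (q := 0) ?_
    rw [← hball]
    intro x hx
    rw [mem_closedBall_zero_iff]
    exact hR x hx
  · rw [hball] at h
    exact ball_J1 hr hlam hc h

end TH259.NA
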