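import Pool.Agent.TH259.NA.Lim
import Pool.Agent.TH259.NS.Main
import Pool.Agent.TH298.AN.MODE
import Pool.Agent.TH298.AN.ODEM

/-!
Schiffer's problem for domains with an `n`-fold rotational symmetry between two concentric circles.
-/

set_option autoImplicit false

open MeasureTheory Set Real Filter Topology Metric TH259.NS
open Pool.Agent.TH298.Sch (Sol SC Lr ro rot_inv)
open Pool.Agent.TH298.AN (Pars Mode Odem)
open scoped ContDiff

namespace TH259.NA

theorem B_abs (m : ℕ) {s : ℝ} (hs : 0 ≤ s) : |B m s| ≤ exp s / (m.factorial : ℝ) := by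
  have h1 : ∀ k, ‖bt m k s‖ ≤ s ^ k / (k.factorial : ℝ) / (m.factorial : ℝ) := by
    intro k
    have hk : (0 : ℝ) < k.factorial := by positivity
    have hm : (0 : ℝ) < m.factorial := by positivity
    have hkm : (m.factorial : ℝ) ≤ ((k + m).factorial : ℝ) := by
      exact_mod_cast Nat.factorial_le (Nat.le_add_left m k)
    unfold bt
    rw [norm_div, norm_mul, norm_pow, norm_neg, norm_one, one_pow, one_mul, norm_pow,
      Real.norm_eq_abs, Real.norm_eq_abs, abs_of_nonneg hs,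
      abs_of_pos (show (0 : ℝ) < (k.factorial : ℝ) * ((k + m).factorial : ℝ) by positivity),
      div_div]
    exact div_le_div_of_nonneg_left (by positivity) (by positivity)
      (mul_le_mul_of_nonneg_left hkm hk.le)
  have h2 : HasSum (fun k : ℕ => s ^ k / (k.factorial : ℝ) / (m.factorial : ℝ))
      (exp s / (m.factorial : ℝ)) := by
    have := (NormedSpace.expSeries_div_hasSum_exp (𝔸 := ℝ) s).div_const (m.factorial : ℝ)
    rwa [← Real.exp_eq_exp_ℝ] at this
  have h3 := tsum_of_norm_bounded h2 h1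
  rw [Real.norm_eq_abs] at h3
  exact h3

/-- no zeros for large index -/
theorem B_large {S : ℝ} (n : ℕ) (hn : S * exp S < n + 1) {s : ℝ} (hs0 : 0 ≤ s)
    (hs : s ≤ S) : 0 < B n s := by
  have hS0 : 0 ≤ S := hs0.trans hs
  have hn0 : (0 : ℝ) < n.factorial := by positivity
  have h1 : ∀ t ∈ Icc (0 : ℝ) s, ‖-B (n + 1) t‖ ≤ exp S / ((n + 1).factorial : ℝ) := by
    intro t ht
    rw [norm_neg, Real.norm_eq_abs]
    refine (B_abs (n + 1) ht.1).trans ?_
    exact div_le_div_of_nonneg_right (exp_le_exp.2 (ht.2.trans hs)) (by positivity)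
  have h2 := (convex_Icc (0 : ℝ) s).norm_image_sub_le_of_norm_hasDerivWithin_le
    (f := B n) (fun t _ => (B_deriv n t).hasDerivWithinAt) h1
    (left_mem_Icc.2 hs0) (right_mem_Icc.2 hs0)
  rw [Real.norm_eq_abs, Real.norm_eq_abs, sub_zero, abs_of_nonneg hs0, B_zero] at h2
  have h3 := (abs_le.1 h2).1
  have h4 : exp S / ((n + 1).factorial : ℝ) * s < 1 / (n.factorial : ℝ) := by
    rw [Nat.factorial_succ, div_mul_eq_mul_div, div_lt_div_iff₀ (by positivity) hn0]
    push_cast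
    have h5 : exp S * s ≤ S * exp S := by
      rw [mul_comm S]
      exact mul_le_mul_of_nonneg_left hs (exp_pos S).le
    have h6 : exp S * s < (n : ℝ) + 1 := by linarith
    rw [one_mul]
    exact mul_lt_mul_of_pos_right h6 hn0
  linarith

/-- room for the radii -/
theorem roomP (P : ℕ → Prop) {lam : ℝ} (hlam : 0 < lam) {a1 R : ℝ} (ha1 : 0 < a1) (haR : a1 ≤ R)
    (hJ : ∀ n : ℕ, P n → ∀ t, √lam * a1 ≤ t → t ≤ √lam * R → J n t ≠ 0) :
    ∃ a b : ℝ, 0 < a ∧ a < a1 ∧ R < b ∧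
      ∀ n : ℕ, P n → ∀ s ∈ Icc (lam * a ^ 2 / 4) (lam * b ^ 2 / 4), B n s ≠ 0 := by
  classical
  have hk : 0 < √lam := Real.sqrt_pos.2 hlam
  have hkk : √lam ^ 2 = lam := Real.sq_sqrt hlam.le
  have hR : 0 < R := ha1.trans_le haR
  obtain ⟨S, hS⟩ : ∃ S, S = lam * (R + 1) ^ 2 / 4 := ⟨_, rfl⟩
  obtain ⟨N, hN⟩ := exists_nat_ge (S * exp S)
  -- no zeros in the closed annulus
  have h1 : ∀ n : ℕ, P n → ∀ x, a1 ≤ x → x ≤ R → B n (lam * x ^ 2 / 4) ≠ 0 := by
    intro n hn x hx1 hx2 h0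
    refine hJ n hn (√lam * x) (mul_le_mul_of_nonneg_left hx1 hk.le)
      (mul_le_mul_of_nonneg_left hx2 hk.le) ?_
    rw [J_eq, mul_pow, hkk, h0, mul_zero]
  obtain ⟨V, hV⟩ : ∃ V : Set ℝ, V = ⋂ n ∈ (Finset.range N).filter P, {x : ℝ | B n (lam * x ^ 2 / 4) ≠ 0} :=
    ⟨_, rfl⟩
  have hVo : IsOpen V := by
    rw [hV]
    refine isOpen_biInter_finset fun n _ => ?_
    exact isOpen_ne_fun ((B_cont n).comp (by fun_prop)) continuous_const
  have hVm : ∀ x, x ∈ V ↔ ∀ n : ℕ, P n → n < N → B n (lam * x ^ 2 / 4) ≠ 0 := by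
    intro x
    rw [hV]
    simp only [mem_iInter, Finset.mem_filter, Finset.mem_range, mem_ofPred_eq, and_imp]
    exact ⟨fun h n h1 h2 => h n h2 h1, fun h n h1 h2 => h n h2 h1⟩
  obtain ⟨δ1, hδ1, hd1⟩ := Metric.isOpen_iff.1 hVo a1
    ((hVm a1).2 fun n h2 _ => h1 n h2 a1 le_rfl haR)
  obtain ⟨δ2, hδ2, hd2⟩ := Metric.isOpen_iff.1 hVo R
    ((hVm R).2 fun n h2 _ => h1 n h2 R haR le_rfl)
  refine ⟨a1 - min δ1 a1 / 2, R + min δ2 1 / 2, ?_, ?_, ?_, ?_⟩
  · linarith [min_le_right δ1 a1]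
  · have := lt_min hδ1 ha1
    linarith
  · have := lt_min hδ2 one_pos
    linarith
  · intro n hn s hs
    obtain ⟨a, ha⟩ : ∃ a, a = a1 - min δ1 a1 / 2 := ⟨_, rfl⟩
    obtain ⟨b, hb⟩ : ∃ b, b = R + min δ2 1 / 2 := ⟨_, rfl⟩
    rw [← ha, ← hb] at hs
    have ha0 : 0 < a := by linarith [min_le_right δ1 a1]
    have hb1 : b ≤ R + 1 := by linarith [min_le_right δ2 1]
    have hb0 : 0 < b := by
      have := lt_min hδ2 one_pos
      linarith
    have hs0 : 0 ≤ s := le_trans (by positivity) hs.1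
    obtain ⟨x, hx⟩ : ∃ x, x = 2 * √s / √lam := ⟨_, rfl⟩
    have hxs : lam * x ^ 2 / 4 = s := by
      rw [hx, div_pow, mul_pow, hkk, Real.sq_sqrt hs0]
      field_simp
      ring
    have hx0 : 0 ≤ x := by rw [hx]; positivity
    have hxa : a ≤ x := by
      have h3 : lam * a ^ 2 / 4 ≤ lam * x ^ 2 / 4 := by rw [hxs]; exact hs.1
      have h4 : a ^ 2 ≤ x ^ 2 := by
        by_contra hcon
        push Not at hcon
        have := mul_lt_mul_of_pos_left hcon hlam
        linarith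
      exact (pow_le_pow_iff_left₀ ha0.le hx0 two_ne_zero).1 h4
    have hxb : x ≤ b := by
      have h3 : lam * x ^ 2 / 4 ≤ lam * b ^ 2 / 4 := by rw [hxs]; exact hs.2
      have h4 : x ^ 2 ≤ b ^ 2 := by
        by_contra hcon
        push Not at hcon
        have := mul_lt_mul_of_pos_left hcon hlam
        linarith
      exact (pow_le_pow_iff_left₀ hx0 hb0.le two_ne_zero).1 h4
    rw [← hxs]
    by_cases hnN : n < N
    · rcases lt_or_ge x a1 with h3 | h3
      · refine (hVm x).1 (hd1 ?_) n hn hnN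
        rw [mem_ball, Real.dist_eq, abs_lt]
        have := min_le_left δ1 a1
        constructor <;> linarith
      · rcases le_or_gt x R with h4 | h4
        · exact h1 n hn x h3 h4
        · refine (hVm x).1 (hd2 ?_) n hn hnN
          rw [mem_ball, Real.dist_eq, abs_lt]
          have := min_le_left δ2 1
          constructor <;> linarith
    · refine (B_large (S := S) n ?_ (by positivity) ?_).ne'
      · have : (N : ℝ) ≤ n := by exact_mod_cast not_lt.1 hnN
        linarith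
      · rw [hS]
        have : x ^ 2 ≤ (R + 1) ^ 2 := pow_le_pow_left₀ hx0 (hxb.trans hb1) 2
        have := mul_le_mul_of_nonneg_left this hlam.le
        linarith


/-- **Schiffer's problem between two circles, with a rotational symmetry.** -/
theorem annN (hP : Pars) {n : ℕ} (hn : 0 < n) {Ω : Set ℂ} (ho : IsOpen Ω)
    (hb : Bornology.IsBounded Ω) (hne : Ω.Nonempty) (hco : IsPreconnected Ωᶜ)
    (hint : interior (closure Ω) = Ω) (hfr : volume (frontier Ω) = 0)
    (hs : ∀ x ∈ Ω, Complex.exp ((2 * π / n : ℝ) * Complex.I) * x ∈ Ω) {lam : ℝ} (hlam : 0 < lam)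
    {a1 R : ℝ} (ha1 : 0 < a1) (hin : ball 0 a1 ⊆ Ω) (hR : ∀ x ∈ Ω, ‖x‖ ≤ R)
    (hJ : ∀ k : ℕ, 1 ≤ k → n ∣ k → ∀ t, √lam * a1 ≤ t → t ≤ √lam * R → J k t ≠ 0)
    {c : ℝ} {u : ℂ → ℝ} {G : ℂ → ℂ} (h : Sol Ω lam c u G)
    (hu0 : ¬ (u =ᵐ[volume.restrict Ω] 0)) : ∃ r : ℝ, 0 < r ∧ Ω = ball 0 r := by
  have hm := ho.measurableSet
  have hc := h.c_ne hb hm hlam hu0
  obtain ⟨ζ, hζdef⟩ : ∃ ζ : ℂ, ζ = Complex.exp ((2 * π / n : ℝ) * Complex.I) := ⟨_, rfl⟩
  have hn0 : (n : ℂ) ≠ 0 := by exact_mod_cast hn.ne'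
  have hζ1 : ‖ζ‖ = 1 := by rw [hζdef]; exact Complex.norm_exp_ofReal_mul_I _
  have hζn : ζ ^ n = 1 := by
    rw [hζdef, ← Complex.exp_nat_mul]
    have : (n : ℂ) * (((2 * π / n : ℝ) : ℂ) * Complex.I) = 2 * π * Complex.I := by
      push_cast
      field_simp
    rw [this]
    exact Complex.exp_two_pi_mul_I
  rw [← hζdef] at hs
  have hpow : ∀ k : ℕ, ∀ x ∈ Ω, ζ ^ k * x ∈ Ω := by
    intro k
    induction k with
    | zero => intro x hx; simpa using hx
    | succ k ih =>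
      intro x hx
      rw [pow_succ, mul_assoc]
      exact ih _ (hs x hx)
  have hΩ : ∀ x, ζ * x ∈ Ω ↔ x ∈ Ω := by
    intro x
    constructor
    · intro hx
      have h1 := hpow (n - 1) _ hx
      rw [← mul_assoc, ← pow_succ, Nat.sub_add_cancel hn, hζn, one_mul] at h1
      exact h1
    · exact hs x
  obtain ⟨u', G', hS, hu'⟩ := h.symm hb hm hn hζ1 hζn hΩ
  have hR00 : 0 ≤ R := by
    have := hR 0 (hin (mem_ball_self ha1))
    rwa [norm_zero] at this
  have haR : a1 ≤ R := by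
    by_contra hcon
    push Not at hcon
    have h1 : (((R + a1) / 2 : ℝ) : ℂ) ∈ Ω := by
      apply hin
      rw [mem_ball_zero_iff, Complex.norm_real, Real.norm_eq_abs, abs_of_pos (by linarith)]
      linarith
    have h2 := hR _ h1
    rw [Complex.norm_real, Real.norm_eq_abs, abs_of_pos (by linarith)] at h2
    linarith
  obtain ⟨a, b, ha0, haa, hRb, hB⟩ := roomP (fun k => 1 ≤ k ∧ n ∣ k) hlam ha1 haR
    (fun k hk => hJ k hk.1 hk.2)
  have hab : a < b := by linarith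
  obtain ⟨μ, hμ, hC⟩ := coerN hP Pool.Agent.TH298.AN.mode Pool.Agent.TH298.AN.odem hn ha0 hab hlam
    (fun k h1 h2 => hB k ⟨h1, h2⟩)
  have hrz : ∀ ψ, SC ψ → ∫ x in Ω, Lr ψ x = 0 := fun ψ hψ =>
    rot_zero5 (n := n) ho hfr hin haa hR hRb (ha0.trans hab) hlam hμ hC hS hc
      (by rw [← hζdef]; exact hΩ) (by rw [← hζdef]; exact hu') hψ
  exact disc_of_rot ho hb hne hco hint fun t x hx => rot_inv ho hb hrz t hx

end TH259.NA
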